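import Mathlib
import Pool.Agent.R104.Shift

set_option autoImplicit false

namespace Pool.Agent.Results.MP_2aafb6_co.ShiftIdentity

open Pool.Agent.R104.Shift

theorem N_eq_of_least {b c k m : ℕ} (h1 : 0 < m) (h2 : ¬ Ex b c k m)
    (h3 : ∀ n, 0 < n → ¬ Ex b c k n → m ≤ n) : N b c k = m := by
  unfold N
  apply le_antisymm
  · apply sInf_le
    refine ⟨m, ⟨h1, fun a ha => ?_⟩, rfl⟩
    by_contra hh
    exact h2 ⟨a, ha, hh⟩
  · apply le_sInf
    rintro _ ⟨n, ⟨hn, h⟩, rfl⟩
    have h4 : m ≤ n := by
      refine h3 n hn ?_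
      rintro ⟨a, ha, hh⟩
      exact hh (h a ha)
    exact Nat.cast_le.2 h4

/-- For all positive integers `b, c, k` with `b ≤ c < 2 b`:
`N(b + k, c + 2 k, k) = N(b, c, k) + k`, an identity between finite numbers
(indeed `N(b, c, k) ≤ b + k`). -/
theorem result : ∀ b c k : ℕ, 0 < b → 0 < c → 0 < k → b ≤ c → c < 2 * b →
    N (b + k) (c + 2 * k) k = N b c k + k ∧ N b c k ≤ ((b + k : ℕ) : ℕ∞) := by
  classical
  intro b c k hb _ hk _ hc
  have hex : ∃ n, 0 < n ∧ ¬ Ex b c k n := ⟨b + k, by omega, not_Ex hc hk⟩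
  obtain ⟨h1, h2⟩ := Nat.find_spec hex
  have h3 : ∀ n, 0 < n → ¬ Ex b c k n → Nat.find hex ≤ n := fun n h h' =>
    Nat.find_min' hex ⟨h, h'⟩
  have h4 : Nat.find hex ≤ b + k := h3 _ (by omega) (not_Ex hc hk)
  generalize Nat.find hex = m at h1 h2 h3 h4
  have hN := N_eq_of_least h1 h2 h3
  refine ⟨?_, ?_⟩
  · rw [hN]
    have : N (b + k) (c + 2 * k) k = ((m + k : ℕ) : ℕ∞) := by
      refine N_eq_of_least (by omega) ?_ ?_
      · intro h
        exact h2 (Ex_of_shift hk h)
      · intro n hn hnE
        by_cases hnk : n ≤ k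
        · exfalso
          apply hnE
          have hkz : (0 : ℤ) < k := by exact_mod_cast hk
          refine ⟨fun i => 2 * k * i, ⟨by simp, fun i _ => ?_, fun i hi => by omega⟩, ?_⟩
          · simp only
            push_cast
            linarith
          · rintro ⟨i, j, _, _, h⟩
            simp only at h
            have h5 : (k : ℤ) * (2 * ((j : ℤ) - i)) = k * 1 := by linarith
            have h6 := mul_left_cancel₀ hkz.ne' h5
            omega
        · have h7 := h3 (n - k) (by omega) (by
            intro h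
            apply hnE
            have := Ex_shift hc hk h
            rwa [Nat.sub_add_cancel (by omega)] at this)
          omega
    rw [this]
    push_cast
    rfl
  · rw [hN]
    exact_mod_cast h4

end Pool.Agent.Results.MP_2aafb6_co.ShiftIdentity
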